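import Mathlib
import Pool.Agent.W618.PC.Desc

/-!
# PC-GROW: the first five levels (helper52)
-/

open Set Topology Filter
open Pool.Agent.W618.PC

namespace Pool.Agent.W52.PCt.Grow

theorem nb {X : Type} [MetricSpace X] (hP : Pol X) {K O : Set X} (hK : IsClosed K)
    (hO : IsOpen O) (hKO : K ⊆ O) :
    ∃ F : Set X, Fine F ∧ K ⊆ interior F ∧ F ⊆ O ∧ ∀ x ∈ F, ∃ z ∈ K, JoinedIn F x z := by
  obtain ⟨F, h1, h2, h3, h4⟩ := hP.2 K O hK hO hKO 1 one_pos
  refine ⟨F, h1, h2, h3, fun x hx => ?_⟩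
  obtain ⟨z, hz, h5⟩ := h4 x hx
  exact ⟨z, hz, h5.mono inter_subset_left⟩

/-- five levels -/
def seq {X : Type} (A B C D : Set X) : ℕ → Set X
  | 0 => A
  | 1 => B
  | 2 => C
  | 3 => D
  | _ => univ

theorem grow : S_GROW := by
  intro X _ _ _ hP y r R W hW hWp hBW hWR y' V hV hy' hVr
  obtain ⟨F0, f1, f2, f3, f4⟩ := nb hP isClosed_singleton hV (singleton_subset_iff.2 hy')
  obtain ⟨F1, g1, g2, g3, g4⟩ := nb hP f1.1 hV f3
  have hVW : V ⊆ W := hVr.trans (Metric.ball_subset_closedBall.trans hBW)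
  obtain ⟨K1, k1, k2, k3, k4⟩ := nb hP (Metric.isClosed_closedBall.union g1.1) hW
    (union_subset hBW (g3.trans hVW))
  have hj : ∀ p : X, p ∈ K1 → ∃ C : Set X, IsCompact C ∧ C ⊆ W ∧ p ∈ C ∧
      ∀ x ∈ C, JoinedIn C x y' := by
    intro p hp
    obtain ⟨γ, hγ⟩ := hWp.joinedIn p (k3 hp) y' (hVW hy')
    refine ⟨range γ, isCompact_range γ.continuous, ?_, ⟨0, γ.source⟩, ?_⟩
    · rintro _ ⟨t, rfl⟩
      exact hγ t
    · intro x hx
      have : PathConnectedSpace unitInterval := isPathConnected_iff_pathConnectedSpace.1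
        ((convex_Icc (0 : ℝ) 1).isPathConnected ⟨0, left_mem_Icc.2 zero_le_one⟩)
      exact (isPathConnected_range γ.continuous).joinedIn x hx y' ⟨1, γ.target⟩
  choose! C c1 c2 c3 c4 using hj
  obtain ⟨T, hT, hT2⟩ := k1.2 1 one_pos
  obtain ⟨K, hK⟩ : ∃ K : Set X, K = K1 ∪ ⋃ p ∈ T, C p := ⟨_, rfl⟩
  have hKc : IsClosed K := by
    rw [hK]
    exact k1.1.union ((T.finite_toSet).isClosed_biUnion fun p hp => (c1 p (hT p hp)).isClosed)
  have hKW : K ⊆ W := by
    rw [hK]
    exact union_subset k3 (iUnion₂_subset fun p hp => c2 p (hT p hp))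
  have hCK : ∀ p ∈ T, C p ⊆ K := by
    intro p hp x hx
    rw [hK]
    exact Or.inr (mem_iUnion₂.2 ⟨p, hp, hx⟩)
  have hK1K : K1 ⊆ K := by rw [hK]; exact subset_union_left
  have hKj : ∀ x ∈ K, JoinedIn K x y' := by
    intro x hx
    rw [hK] at hx
    rcases hx with hx | hx
    · obtain ⟨p, hp, h1⟩ := hT2 x hx
      exact (h1.mono (inter_subset_left.trans hK1K)).trans
        ((c4 p (hT p hp) p (c3 p (hT p hp))).mono (hCK p hp))
    · obtain ⟨p, hp, h1⟩ := mem_iUnion₂.1 hx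
      exact (c4 p (hT p hp) x h1).mono (hCK p hp)
  obtain ⟨F2, m1, m2, m3, m4⟩ := nb hP hKc hW hKW
  obtain ⟨F3, n1, n2, n3, n4⟩ := nb hP m1.1 Metric.isOpen_ball (m3.trans hWR)
  have j0 : ∀ x ∈ F0, JoinedIn F0 x y' := by
    intro x hx
    obtain ⟨z, hz, h⟩ := f4 x hx
    rw [mem_singleton_iff] at hz
    rwa [hz] at h
  have i01 : F0 ⊆ F1 := g2.trans interior_subset
  have iB : Metric.closedBall y r ∪ F1 ⊆ K1 := k2.trans interior_subset
  have j1 : ∀ x ∈ F1, JoinedIn F1 x y' := by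
    intro x hx
    obtain ⟨z, hz, h⟩ := g4 x hx
    exact h.trans ((j0 z hz).mono i01)
  have iK2 : K ⊆ F2 := m2.trans interior_subset
  have j2 : ∀ x ∈ F2, JoinedIn F2 x y' := by
    intro x hx
    obtain ⟨z, hz, h⟩ := m4 x hx
    exact h.trans ((hKj z hz).mono iK2)
  have i23 : F2 ⊆ F3 := n2.trans interior_subset
  have j3 : ∀ x ∈ F3, JoinedIn F3 x y' := by
    intro x hx
    obtain ⟨z, hz, h⟩ := n4 x hx
    exact h.trans ((j2 z hz).mono i23)
  refine ⟨seq F0 F1 F2 F3, ⟨?_, ?_, rfl⟩, f2 rfl, g3, ?_, n3, ?_⟩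
  · intro i hi
    interval_cases i
    · exact f1
    · exact g1
    · exact m1
    · exact n1
    · exact hP.1
  · intro i hi
    interval_cases i
    · exact g2
    · exact ((subset_union_right.trans iB).trans hK1K).trans m2
    · exact n2
    · change F3 ⊆ interior univ
      rw [interior_univ]
      exact subset_univ _
  · exact ((Metric.ball_subset_closedBall.trans (subset_union_left.trans iB)).trans hK1K).trans iK2
  · intro i hi
    interval_cases i
    · exact j0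
    · exact j1
    · exact j2
    · exact j3
    · intro x _
      change JoinedIn univ x y'
      exact joinedIn_univ.2 (PathConnectedSpace.joined x y')

end Pool.Agent.W52.PCt.Grow
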