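import Mathlib
import Pool.Agent.W618.PC.Stms

/-!
# PC-HM2: Hahn-Mazurkiewicz from the refinement of chains (helper52)
-/

open Set Topology Filter
open Pool.Agent.W618.PC

namespace Pool.Agent.W52.PCt.HM2

/-- the index of a parameter -/
noncomputable def idx (k : ℕ) (t : ℝ) : ℕ := min ⌊(k : ℝ) * t⌋₊ (k - 1)

theorem idx_lt {k : ℕ} (hk : 0 < k) (t : ℝ) : idx k t < k := by
  unfold idx
  omega

theorem idx_near {k : ℕ} {s t : ℝ} (hs : 0 ≤ s) (ht : 0 ≤ t) (h : (k : ℝ) * |s - t| < 1) :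
    idx k s = idx k t ∨ idx k s = idx k t + 1 ∨ idx k t = idx k s + 1 := by
  have hk0 : (0 : ℝ) ≤ k := Nat.cast_nonneg k
  have h1 : |(k : ℝ) * s - k * t| < 1 := by
    rw [← mul_sub, abs_mul, abs_of_nonneg hk0]
    exact h
  rw [abs_lt] at h1
  have a1 := Nat.floor_le (mul_nonneg hk0 hs)
  have a2 := Nat.lt_floor_add_one ((k : ℝ) * s)
  have b1 := Nat.floor_le (mul_nonneg hk0 ht)
  have b2 := Nat.lt_floor_add_one ((k : ℝ) * t)
  have c1 : ⌊(k : ℝ) * s⌋₊ < ⌊(k : ℝ) * t⌋₊ + 2 := by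
    have : (⌊(k : ℝ) * s⌋₊ : ℝ) < ((⌊(k : ℝ) * t⌋₊ + 2 : ℕ) : ℝ) := by push_cast; linarith
    exact_mod_cast this
  have c2 : ⌊(k : ℝ) * t⌋₊ < ⌊(k : ℝ) * s⌋₊ + 2 := by
    have : (⌊(k : ℝ) * t⌋₊ : ℝ) < ((⌊(k : ℝ) * s⌋₊ + 2 : ℕ) : ℝ) := by push_cast; linarith
    exact_mod_cast this
  unfold idx
  omega

theorem idx_mul {k m : ℕ} (hk : 0 < k) (hm : 0 < m) {t : ℝ} (ht : 0 ≤ t) :
    ∃ j < m, idx (k * m) t = idx k t * m + j := by
  have hk0 : (0 : ℝ) ≤ k := Nat.cast_nonneg k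
  have hm0 : (0 : ℝ) < m := by exact_mod_cast hm
  have a1 := Nat.floor_le (mul_nonneg hk0 ht)
  have a2 := Nat.lt_floor_add_one ((k : ℝ) * t)
  have hkm : (((k * m : ℕ) : ℝ) * t) = (k * t) * m := by push_cast; ring
  have b1 : ⌊(k : ℝ) * t⌋₊ * m ≤ ⌊((k * m : ℕ) : ℝ) * t⌋₊ := by
    apply Nat.le_floor
    rw [hkm]
    push_cast
    exact mul_le_mul_of_nonneg_right a1 hm0.le
  have b2 : ⌊((k * m : ℕ) : ℝ) * t⌋₊ < (⌊(k : ℝ) * t⌋₊ + 1) * m := by
    rw [Nat.floor_lt (by positivity), hkm]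
    push_cast
    exact mul_lt_mul_of_pos_right a2 hm0
  have hlo : idx k t * m ≤ idx (k * m) t := by
    unfold idx
    apply le_min
    · exact (Nat.mul_le_mul_right _ (min_le_left _ _)).trans b1
    · have h1 : min ⌊(k : ℝ) * t⌋₊ (k - 1) * m ≤ (k - 1) * m :=
        Nat.mul_le_mul_right _ (min_le_right _ _)
      have h2 : (k - 1) * m = k * m - m := by rw [Nat.sub_mul, one_mul]
      omega
  have hhi : idx (k * m) t < (idx k t + 1) * m := by
    rcases Nat.lt_or_ge ⌊(k : ℝ) * t⌋₊ k with h | h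
    · have h1 : idx k t = ⌊(k : ℝ) * t⌋₊ := by unfold idx; omega
      rw [h1]
      exact lt_of_le_of_lt (min_le_left _ _) b2
    · have h1 : idx k t + 1 = k := by unfold idx; omega
      rw [h1]
      exact idx_lt (Nat.mul_pos hk hm) t
  refine ⟨idx (k * m) t - idx k t * m, ?_, by omega⟩
  rw [Nat.add_mul, one_mul] at hhi
  omega

theorem idx_div {k i : ℕ} (hi : i < k) : idx k ((i : ℝ) / k) = i := by
  have hk : (k : ℝ) ≠ 0 := by
    have : 0 < k := by omega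
    positivity
  unfold idx
  rw [mul_div_cancel₀ _ hk, Nat.floor_natCast]
  omega

theorem hm2 : S_HM1 → S_HM := by
  intro hHM1 X _ _ _ _
  classical
  obtain ⟨D, hD⟩ : ∃ D : ℝ, ∀ x y : X, dist x y ≤ D := by
    obtain ⟨D, hD⟩ := Metric.isBounded_iff.1 (isCompact_univ (X := X)).isBounded
    exact ⟨D, fun x y => hD (mem_univ x) (mem_univ y)⟩
  have step : ∀ (n : ℕ) (p : ℕ × (ℕ → Set X)), ∃ p' : ℕ × (ℕ → Set X),
      (0 < p.1 ∧ ∃ ε, Ch ε p.1 p.2) → (0 < p'.1 ∧ Ch ((1 / 2 : ℝ) ^ n) p'.1 p'.2) ∧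
      ∃ m > 0, p'.1 = p.1 * m ∧ ∀ i < p.1, ∀ j < m, (p'.2 (i * m + j) ∩ p.2 i).Nonempty := by
    intro n p
    by_cases hp : 0 < p.1 ∧ ∃ ε, Ch ε p.1 p.2
    · obtain ⟨h0, ε, hC⟩ := hp
      obtain ⟨m, W', hm, hW, hI⟩ := hHM1 X ε p.1 p.2 hC ((1 / 2 : ℝ) ^ n) (by positivity)
      exact ⟨(p.1 * m, W'), fun _ => ⟨⟨Nat.mul_pos h0 hm, hW⟩, m, hm, rfl, hI⟩⟩
    · exact ⟨p, fun h => (hp h).elim⟩
  choose f hf using step
  obtain ⟨u, hu0, hus⟩ : ∃ u : ℕ → ℕ × (ℕ → Set X), u 0 = (1, fun _ => univ) ∧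
      ∀ n, u (n + 1) = f n (u n) :=
    ⟨fun n => Nat.rec (1, fun _ => univ) (fun n p => f n p) n, rfl, fun n => rfl⟩
  have hinv : ∀ n, 0 < (u n).1 ∧ ∃ ε, Ch ε (u n).1 (u n).2 := by
    intro n
    induction n with
    | zero =>
      rw [hu0]
      refine ⟨one_pos, D, ⟨fun _ _ => isOpen_univ, fun _ _ => isConnected_univ,
        fun _ _ x _ y _ => hD x y, fun i hi => ?_, fun x => ⟨0, one_pos, trivial⟩⟩⟩
      omega
    | succ n ih =>
      rw [hus n]
      obtain ⟨⟨h1, h2⟩, _⟩ := hf n (u n) ih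
      exact ⟨h1, _, h2⟩
  have hstep : ∀ n, (0 < (u (n + 1)).1 ∧ Ch ((1 / 2 : ℝ) ^ n) (u (n + 1)).1 (u (n + 1)).2) ∧
      ∃ m > 0, (u (n + 1)).1 = (u n).1 * m ∧ ∀ i < (u n).1, ∀ j < m,
        ((u (n + 1)).2 (i * m + j) ∩ (u n).2 i).Nonempty := by
    intro n
    rw [hus n]
    exact hf n (u n) (hinv n)
  obtain ⟨k, hkdef⟩ : ∃ k : ℕ → ℕ, k = fun n => (u (n + 1)).1 := ⟨_, rfl⟩
  obtain ⟨W, hWdef⟩ : ∃ W : ℕ → ℕ → Set X, W = fun n => (u (n + 1)).2 := ⟨_, rfl⟩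
  have hk : ∀ n, 0 < k n := fun n => by rw [hkdef]; exact (hstep n).1.1
  have hC : ∀ n, Ch ((1 / 2 : ℝ) ^ n) (k n) (W n) := fun n => by
    rw [hkdef, hWdef]; exact (hstep n).1.2
  have hM : ∀ n, ∃ m > 0, k (n + 1) = k n * m ∧ ∀ i < k n, ∀ j < m,
      (W (n + 1) (i * m + j) ∩ W n i).Nonempty := fun n => by
    rw [hkdef, hWdef]; exact (hstep (n + 1)).2
  clear hkdef hWdef hstep hinv hus hu0 hf
  have hpt : ∀ n i, ∃ x : X, i < k n → x ∈ W n i := by
    intro n i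
    by_cases hi : i < k n
    · obtain ⟨x, hx⟩ := ((hC n).conn i hi).nonempty
      exact ⟨x, fun _ => hx⟩
    · obtain ⟨x, _⟩ := ((hC n).conn 0 (hk n)).nonempty
      exact ⟨x, fun h => (hi h).elim⟩
  choose pt hpt using hpt
  obtain ⟨g, hg⟩ : ∃ g : ℕ → ℝ → X, g = fun n t => pt n (idx (k n) t) := ⟨_, rfl⟩
  have hgW : ∀ n t, g n t ∈ W n (idx (k n) t) := by
    intro n t
    rw [hg]
    exact hpt n _ (idx_lt (hk n) t)
  have hgs : ∀ t, 0 ≤ t → ∀ n, dist (g n t) (g (n + 1) t) ≤ 2 * (1 / 2 : ℝ) ^ n := by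
    intro t ht n
    obtain ⟨m, hm, hkm, hI⟩ := hM n
    obtain ⟨j, hj, hji⟩ := idx_mul (hk n) hm ht
    obtain ⟨z, hz1, hz2⟩ := hI _ (idx_lt (hk n) t) j hj
    have h1 := hgW (n + 1) t
    rw [hkm, hji] at h1
    have hlt : idx (k n) t * m + j < k (n + 1) := by
      rw [hkm, ← hji]
      exact idx_lt (Nat.mul_pos (hk n) hm) t
    have d1 := (hC (n + 1)).small _ hlt z hz1 _ h1
    have d2 := (hC n).small _ (idx_lt (hk n) t) _ (hgW n t) z hz2
    have d3 := dist_triangle (g n t) z (g (n + 1) t)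
    have d4 : (1 / 2 : ℝ) ^ (n + 1) ≤ (1 / 2 : ℝ) ^ n :=
      pow_le_pow_of_le_one (by norm_num) (by norm_num) (by omega)
    linarith
  have hlim : ∀ t, ∃ x : X, 0 ≤ t → ∀ n, dist (g n t) x ≤ 4 * (1 / 2 : ℝ) ^ n := by
    intro t
    by_cases ht : 0 ≤ t
    · have hcau : CauchySeq (fun n => g n t) :=
        cauchySeq_of_le_geometric (1 / 2) 2 (by norm_num) (hgs t ht)
      obtain ⟨x, hx⟩ := cauchySeq_tendsto_of_complete hcau
      refine ⟨x, fun _ n => ?_⟩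
      have h1 := dist_le_of_le_geometric_of_tendsto (1 / 2) 2 (by norm_num) (hgs t ht) hx n
      have h2 : 2 * (1 / 2 : ℝ) ^ n / (1 - 1 / 2) = 4 * (1 / 2 : ℝ) ^ n := by ring
      rwa [h2] at h1
    · exact ⟨g 0 t, fun h => (ht h).elim⟩
  choose F hF using hlim
  have hgn : ∀ n s t, 0 ≤ s → 0 ≤ t → (k n : ℝ) * |s - t| < 1 →
      dist (g n s) (g n t) ≤ 2 * (1 / 2 : ℝ) ^ n := by
    intro n s t hs ht h
    have hp : (0 : ℝ) < (1 / 2 : ℝ) ^ n := by positivity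
    have hss := hgW n s
    have htt := hgW n t
    rcases idx_near hs ht h with h1 | h1 | h1
    · rw [h1] at hss
      have := (hC n).small _ (idx_lt (hk n) t) _ hss _ htt
      linarith
    · have hlt := idx_lt (hk n) s
      rw [h1] at hlt hss
      obtain ⟨z, hz1, hz2⟩ := (hC n).next _ hlt
      have d1 := (hC n).small _ hlt _ hss z hz2
      have d2 := (hC n).small _ (idx_lt (hk n) t) z hz1 _ htt
      have d3 := dist_triangle (g n s) z (g n t)
      linarith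
    · have hlt := idx_lt (hk n) t
      rw [h1] at hlt htt
      obtain ⟨z, hz1, hz2⟩ := (hC n).next _ hlt
      have d1 := (hC n).small _ (idx_lt (hk n) s) _ hss z hz1
      have d2 := (hC n).small _ hlt z hz2 _ htt
      have d3 := dist_triangle (g n s) z (g n t)
      linarith
  refine ⟨fun t => F t, ?_, ?_⟩
  · rw [Metric.continuous_iff]
    intro t ε hε
    obtain ⟨n, hn⟩ := exists_pow_lt_of_lt_one (show 0 < ε / 10 by positivity)
      (show (1 / 2 : ℝ) < 1 by norm_num)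
    have hkn : (0 : ℝ) < k n := by exact_mod_cast hk n
    refine ⟨1 / k n, by positivity, fun s hst => ?_⟩
    have h1 : (k n : ℝ) * |(s : ℝ) - t| < 1 := by
      rw [Subtype.dist_eq, Real.dist_eq, lt_div_iff₀ hkn] at hst
      linarith
    have e1 := hF s s.2.1 n
    have e2 := hF t t.2.1 n
    have e3 := hgn n s t s.2.1 t.2.1 h1
    have e4 := dist_triangle4 (F s) (g n s) (g n t) (F t)
    rw [dist_comm (F s) (g n s)] at e4
    linarith
  · intro x
    have hcont : Continuous (fun t : unitInterval => F t) := by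
      rw [Metric.continuous_iff]
      intro t ε hε
      obtain ⟨n, hn⟩ := exists_pow_lt_of_lt_one (show 0 < ε / 10 by positivity)
        (show (1 / 2 : ℝ) < 1 by norm_num)
      have hkn : (0 : ℝ) < k n := by exact_mod_cast hk n
      refine ⟨1 / k n, by positivity, fun s hst => ?_⟩
      have h1 : (k n : ℝ) * |(s : ℝ) - t| < 1 := by
        rw [Subtype.dist_eq, Real.dist_eq, lt_div_iff₀ hkn] at hst
        linarith
      have e1 := hF s s.2.1 n
      have e2 := hF t t.2.1 n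
      have e3 := hgn n s t s.2.1 t.2.1 h1
      have e4 := dist_triangle4 (F s) (g n s) (g n t) (F t)
      rw [dist_comm (F s) (g n s)] at e4
      linarith
    have hcl : IsClosed (range fun t : unitInterval => F t) :=
      (isCompact_range hcont).isClosed
    have hx : x ∈ closure (range fun t : unitInterval => F t) := by
      rw [Metric.mem_closure_iff]
      intro ε hε
      obtain ⟨n, hn⟩ := exists_pow_lt_of_lt_one (show 0 < ε / 5 by positivity)
        (show (1 / 2 : ℝ) < 1 by norm_num)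
      obtain ⟨i, hi, hxi⟩ := (hC n).cover x
      have hkn : (0 : ℝ) < k n := by exact_mod_cast hk n
      have ht0 : (0 : ℝ) ≤ (i : ℝ) / k n := by positivity
      have ht1 : (i : ℝ) / k n ≤ 1 := by
        rw [div_le_one hkn]
        exact_mod_cast hi.le
      refine ⟨F ((i : ℝ) / k n), ⟨⟨(i : ℝ) / k n, ht0, ht1⟩, rfl⟩, ?_⟩
      have e1 := hF _ ht0 n
      have e2 := hgW n ((i : ℝ) / k n)
      rw [idx_div hi] at e2
      have e3 := (hC n).small i hi x hxi _ e2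
      have e4 := dist_triangle x (g n ((i : ℝ) / k n)) (F ((i : ℝ) / k n))
      linarith
    rw [hcl.closure_eq] at hx
    exact hx

end Pool.Agent.W52.PCt.HM2
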