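import Mathlib
import Pool.Agent.W618.PC.Desc

/-!
# PC-LIM: the limit level function (helper52)
-/

open Set Topology Filter
open Pool.Agent.W618.PC

namespace Pool.Agent.W52.PCt.Lim

section

variable {X : Type} [MetricSpace X]

/-- the set of values -/
def V (F : ℕ → ℕ → Set X) (x : X) : Set ℝ :=
  {r : ℝ | ∃ n i : ℕ, i ≤ 4 * 2 ^ n ∧ x ∈ F n i ∧ r = (i : ℝ) / 2 ^ n}

/-- the limit function -/
noncomputable def L (F : ℕ → ℕ → Set X) (x : X) : ℝ := sInf (V F x)

theorem V_nonneg {F : ℕ → ℕ → Set X} {x : X} {r : ℝ} (h : r ∈ V F x) : 0 ≤ r := by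
  obtain ⟨n, i, _, _, rfl⟩ := h
  positivity

theorem V_bdd (F : ℕ → ℕ → Set X) (x : X) : BddBelow (V F x) := ⟨0, fun _ h => V_nonneg h⟩

theorem V_nonempty {F : ℕ → ℕ → Set X} (hL : ∀ n, Lev (4 * 2 ^ n) (F n)) (x : X) :
    (V F x).Nonempty := by
  refine ⟨4, 0, 4, by norm_num, ?_, by norm_num⟩
  have := (hL 0).top
  simp only [pow_zero, mul_one] at this
  rw [this]; trivial

theorem shift {F : ℕ → ℕ → Set X}
    (hF : ∀ n i, i ≤ 4 * 2 ^ n → F (n + 1) (2 * i) = F n i) {n i : ℕ} (hi : i ≤ 4 * 2 ^ n)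
    (k : ℕ) : F (n + k) (i * 2 ^ k) = F n i := by
  induction k with
  | zero => simp
  | succ k ih =>
    have h : i * 2 ^ (k + 1) = 2 * (i * 2 ^ k) := by ring
    rw [h, ← Nat.add_assoc, hF, ih]
    calc i * 2 ^ k ≤ 4 * 2 ^ n * 2 ^ k := Nat.mul_le_mul_right _ hi
      _ = 4 * 2 ^ (n + k) := by ring

theorem L_le {F : ℕ → ℕ → Set X} {n i : ℕ} (hi : i ≤ 4 * 2 ^ n) {x : X} (hx : x ∈ F n i) :
    L F x ≤ (i : ℝ) / 2 ^ n := csInf_le (V_bdd F x) ⟨n, i, hi, hx, rfl⟩

theorem le_L {F : ℕ → ℕ → Set X} (hL : ∀ n, Lev (4 * 2 ^ n) (F n))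
    (hF : ∀ n i, i ≤ 4 * 2 ^ n → F (n + 1) (2 * i) = F n i) {n i : ℕ} (hi : i ≤ 4 * 2 ^ n)
    {x : X} (hx : x ∉ F n i) : (i : ℝ) / 2 ^ n ≤ L F x := by
  refine le_csInf (V_nonempty hL x) ?_
  rintro _ ⟨m, j, hj, hxj, rfl⟩
  by_contra hlt
  push Not at hlt
  rw [div_lt_div_iff₀ (by positivity) (by positivity)] at hlt
  have hlt' : j * 2 ^ n < i * 2 ^ m := by exact_mod_cast hlt
  apply hx
  rw [← shift hF hi m]
  rw [← shift hF hj n] at hxj
  rw [Nat.add_comm n m]
  refine (hL (m + n)).mono hlt'.le ?_ hxj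
  calc i * 2 ^ m ≤ 4 * 2 ^ n * 2 ^ m := Nat.mul_le_mul_right _ hi
    _ = 4 * 2 ^ (m + n) := by ring

theorem L_nonneg {F : ℕ → ℕ → Set X} (hL : ∀ n, Lev (4 * 2 ^ n) (F n)) (x : X) : 0 ≤ L F x :=
  le_csInf (V_nonempty hL x) fun _ h => V_nonneg h

theorem L_le4 {F : ℕ → ℕ → Set X} (hL : ∀ n, Lev (4 * 2 ^ n) (F n)) (x : X) : L F x ≤ 4 := by
  have h := L_le (F := F) (n := 0) (i := 4) (by norm_num) (x := x) (by
    have := (hL 0).top
    simp only [pow_zero, mul_one] at this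
    rw [this]; trivial)
  simpa using h

theorem L_cont {F : ℕ → ℕ → Set X} (hL : ∀ n, Lev (4 * 2 ^ n) (F n))
    (hF : ∀ n i, i ≤ 4 * 2 ^ n → F (n + 1) (2 * i) = F n i) : Continuous (L F) := by
  classical
  rw [continuous_iff_continuousAt]
  intro x
  rw [ContinuousAt, Metric.tendsto_nhds]
  intro ε hε
  obtain ⟨n, hn⟩ := exists_pow_lt_of_lt_one (show 0 < ε / 2 by positivity)
    (show (1 / 2 : ℝ) < 1 by norm_num)
  have hex : ∃ i, i ≤ 4 * 2 ^ n ∧ x ∈ F n i := ⟨4 * 2 ^ n, le_rfl, by rw [(hL n).top]; trivial⟩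
  obtain ⟨i, ⟨hi, hxi⟩, hmin⟩ : ∃ i, (i ≤ 4 * 2 ^ n ∧ x ∈ F n i) ∧
      ∀ j < i, ¬ (j ≤ 4 * 2 ^ n ∧ x ∈ F n j) :=
    ⟨Nat.find hex, Nat.find_spec hex, fun j hj => Nat.find_min hex hj⟩
  have h2n : (0 : ℝ) < 2 ^ n := by positivity
  have hpow : (1 / 2 : ℝ) ^ n = 1 / 2 ^ n := by rw [one_div_pow]
  have up : ∀ᶠ z in 𝓝 x, L F z ≤ ((i : ℝ) + 1) / 2 ^ n := by
    rcases Nat.lt_or_ge i (4 * 2 ^ n) with h | h
    · have h1 : interior (F n (i + 1)) ∈ 𝓝 x := isOpen_interior.mem_nhds ((hL n).step i h hxi)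
      filter_upwards [h1] with z hz
      have := L_le (F := F) (n := n) (i := i + 1) (by omega) (interior_subset hz)
      push_cast at this
      exact this
    · refine Eventually.of_forall fun z => (L_le4 hL z).trans ?_
      rw [le_div_iff₀ h2n]
      have : (4 * 2 ^ n : ℝ) ≤ i := by exact_mod_cast h
      linarith
  have dn : ∀ᶠ z in 𝓝 x, ((i : ℝ) - 1) / 2 ^ n ≤ L F z := by
    rcases Nat.eq_zero_or_pos i with h | h
    · refine Eventually.of_forall fun z => le_trans ?_ (L_nonneg hL z)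
      rw [h, Nat.cast_zero]
      exact div_nonpos_of_nonpos_of_nonneg (by norm_num) h2n.le
    · have h0 : x ∉ F n (i - 1) := fun hc => hmin (i - 1) (by omega) ⟨by omega, hc⟩
      have h1 : (F n (i - 1))ᶜ ∈ 𝓝 x :=
        ((hL n).closed (by omega : i - 1 ≤ 4 * 2 ^ n)).isOpen_compl.mem_nhds h0
      filter_upwards [h1] with z hz
      have := le_L hL hF (n := n) (i := i - 1) (by omega) hz
      rwa [Nat.cast_sub h, Nat.cast_one] at this
  have hx1 : L F x ≤ (i : ℝ) / 2 ^ n := L_le hi hxi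
  have hx2 : ((i : ℝ) - 1) / 2 ^ n ≤ L F x := dn.self_of_nhds
  filter_upwards [up, dn] with z hz1 hz2
  rw [hpow] at hn
  rw [Real.dist_eq, abs_lt]
  rw [add_div] at hz1
  rw [sub_div] at hz2 hx2
  constructor <;> linarith

end

theorem lim : S_LIM := by
  intro X _ F H l G hL hN hF hH hG hlG
  have key : ∀ n, ∀ x ∈ H n, |L F x - l n x / 2 ^ n| ≤ 1 / 2 ^ n := by
    intro n x hx
    have h2n : (0 : ℝ) < 2 ^ n := by positivity
    have h4 : l n x ≤ ((4 * 2 ^ n : ℕ) : ℝ) := by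
      by_contra hc
      push Not at hc
      exact (hN n).hi x hx (4 * 2 ^ n) le_rfl hc (by rw [(hL n).top]; trivial)
    have h0 := (hN n).nonneg x hx
    rw [abs_le]
    constructor
    · -- lower bound
      have hgoal : (l n x - 1) / 2 ^ n ≤ L F x := by
        rcases le_or_gt (l n x) 1 with h1 | h1
        · exact (div_nonpos_of_nonpos_of_nonneg (by linarith) h2n.le).trans (L_nonneg hL x)
        · obtain ⟨i, hi1, hi2⟩ : ∃ i : ℕ, (i : ℝ) < l n x ∧ l n x ≤ i + 1 := by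
            have hc : 0 < ⌈l n x⌉₊ := Nat.ceil_pos.2 (by linarith)
            refine ⟨⌈l n x⌉₊ - 1, ?_, ?_⟩
            · rw [← Nat.lt_ceil]; omega
            · have := Nat.le_ceil (l n x)
              rw [Nat.cast_sub hc, Nat.cast_one]
              linarith
          have hi : i ≤ 4 * 2 ^ n := by
            have : (i : ℝ) < ((4 * 2 ^ n : ℕ) : ℝ) := hi1.trans_le h4
            exact (Nat.cast_lt.1 this).le
          have h5 := le_L hL hF hi ((hN n).hi x hx i hi hi1)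
          refine le_trans ?_ h5
          gcongr
          linarith
      rw [sub_div] at hgoal
      linarith
    · have hgoal : L F x ≤ (l n x + 1) / 2 ^ n := by
        have hfl := Nat.floor_le h0
        have hfl2 := Nat.lt_floor_add_one (l n x)
        rcases Nat.lt_or_ge (4 * 2 ^ n) (⌊l n x⌋₊ + 1) with h1 | h1
        · refine (L_le4 hL x).trans ?_
          rw [le_div_iff₀ h2n]
          have : ((4 * 2 ^ n : ℕ) : ℝ) ≤ (⌊l n x⌋₊ : ℝ) := by exact_mod_cast Nat.lt_succ_iff.1 h1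
          push_cast at this
          linarith
        · have h5 := L_le (F := F) h1 (interior_subset ((hN n).lo x hx _ h1 (by
            push_cast; exact hfl2)))
          refine h5.trans ?_
          push_cast
          gcongr
      rw [add_div] at hgoal
      linarith
  refine ⟨L F, L_cont hL hF, fun x => ⟨L_nonneg hL x, L_le4 hL x⟩, ?_, ?_, ?_⟩
  · intro i hi x hx
    have := L_le (F := F) (n := 0) (i := i) (by omega) hx
    simpa using this
  · intro i hi x hx
    have := le_L hL hF (n := 0) (i := i) (by omega) hx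
    simpa using this
  · rintro n A x y hA ⟨σ, s1, s2, s3, s4, s5⟩
    refine ⟨σ, s1, s2, s3, s4, fun s t hs hst ht => ?_⟩
    have hHk : ∀ k, A ⊆ H (n + k) := by
      intro k
      induction k with
      | zero => exact hA
      | succ k ih => exact ih.trans (hH _)
    have hanti : ∀ k, l (n + k) (σ t) ≤ l (n + k) (σ s) := by
      intro k
      induction k with
      | zero => exact s5 s t hs hst ht
      | succ k ih =>
        have e1 := hlG (n + k) (σ t) (hHk k (s4 t ⟨hs.trans hst, ht⟩))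
        have e2 := hlG (n + k) (σ s) (hHk k (s4 s ⟨hs, hst.trans ht⟩))
        rw [Nat.add_assoc] at e1 e2
        rw [e1, e2]
        exact hG (n + k) ih
    refine le_of_forall_pos_le_add fun ε hε => ?_
    obtain ⟨k, hk⟩ := exists_pow_lt_of_lt_one (show 0 < ε / 2 by positivity)
      (show (1 / 2 : ℝ) < 1 by norm_num)
    have hpow : (1 / 2 : ℝ) ^ k = 1 / 2 ^ k := by rw [one_div_pow]
    rw [hpow] at hk
    have hle : (1 : ℝ) / 2 ^ (n + k) ≤ 1 / 2 ^ k := by
      apply one_div_le_one_div_of_le (by positivity)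
      exact pow_le_pow_right₀ (by norm_num) (by omega)
    have a1 := (abs_le.1 (key (n + k) (σ t) (hHk k (s4 t ⟨hs.trans hst, ht⟩)))).2
    have a2 := (abs_le.1 (key (n + k) (σ s) (hHk k (s4 s ⟨hs, hst.trans ht⟩)))).1
    have a3 : l (n + k) (σ t) / 2 ^ (n + k) ≤ l (n + k) (σ s) / 2 ^ (n + k) := by
      have := hanti k
      gcongr
    linarith

end Pool.Agent.W52.PCt.Lim
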