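import Mathlib
import Pool.Agent.W618.PC.Desc

/-!
# PC-POLY: fine closed neighbourhoods (helper52)
-/

open Set Topology Filter
open Pool.Agent.W618.PC

namespace Pool.Agent.W52.PCt.Poly

section

variable {X : Type} [MetricSpace X]

theorem fine_of_net {F : Set X} (hF : IsClosed F) (h : NetOn (fun _ => (0 : ℝ)) F) : Fine F := by
  classical
  refine ⟨hF, fun δ hδ => ?_⟩
  obtain ⟨P, hP⟩ := h δ hδ
  refine ⟨P.filter (· ∈ F), fun p hp => (Finset.mem_filter.1 hp).2, fun x hx => ?_⟩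
  obtain ⟨p, hp, h1 | h1⟩ := hP x hx
  · exact ⟨p, Finset.mem_filter.2 ⟨hp, h1.target.1⟩, h1.joinedIn⟩
  · exact ⟨p, Finset.mem_filter.2 ⟨hp, h1.source.1⟩, h1.joinedIn.symm⟩

theorem netOn_biUnion {Q : ℝ → X} (hQ : Continuous Q) (a b : ℕ → ℝ) (I : Finset ℕ) :
    NetOn (fun _ => (0 : ℝ)) (⋃ i ∈ I, Q '' Icc (a i) (b i)) := by
  classical
  induction I using Finset.induction_on with
  | empty =>
    simp only [Finset.notMem_empty, iUnion_of_empty, iUnion_empty]
    exact netOn_finite finite_empty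
  | insert i I _ ih =>
    rw [Finset.set_biUnion_insert]
    exact (netOn_piece hQ fun _ _ _ _ _ => le_rfl).union ih

theorem closed_biUnion {Q : ℝ → X} (hQ : Continuous Q) (a b : ℕ → ℝ) (I : Finset ℕ) :
    IsClosed (⋃ i ∈ I, Q '' Icc (a i) (b i)) :=
  I.finite_toSet.isClosed_biUnion fun _ _ => (isCompact_Icc.image hQ).isClosed

end

theorem poly : S_POLY := by
  classical
  intro X _ q hq hqs
  obtain ⟨Q, hQ⟩ : ∃ Q : ℝ → X, Q = fun t => q (projIcc 0 1 zero_le_one t) := ⟨_, rfl⟩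
  have hQc : Continuous Q := by
    rw [hQ]
    exact hq.comp continuous_projIcc
  have hQs : ∀ x, ∃ t ∈ Icc (0 : ℝ) 1, Q t = x := by
    intro x
    obtain ⟨⟨t, ht⟩, rfl⟩ := hqs x
    refine ⟨t, ht, ?_⟩
    rw [hQ]
    simp only
    rw [projIcc_of_mem zero_le_one ht]
  have hQu : Q '' Icc (0 : ℝ) 1 = univ := by
    apply eq_univ_of_forall
    intro x
    obtain ⟨t, ht, h⟩ := hQs x
    exact ⟨t, ht, h⟩
  have hcov : ∀ N : ℕ, 0 < N → ∀ t ∈ Icc (0 : ℝ) 1, ∃ i < N,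
      t ∈ Icc ((i : ℝ) / N) (((i : ℝ) + 1) / N) := by
    intro N hN t ht
    have hN' : (0 : ℝ) < N := by exact_mod_cast hN
    have h0 : 0 ≤ t * N := mul_nonneg ht.1 hN'.le
    rcases Nat.lt_or_ge ⌊t * N⌋₊ N with h | h
    · refine ⟨⌊t * N⌋₊, h, ?_, ?_⟩
      · rw [div_le_iff₀ hN']
        exact Nat.floor_le h0
      · rw [le_div_iff₀ hN']
        exact (Nat.lt_floor_add_one _).le
    · refine ⟨N - 1, by omega, ?_, ?_⟩
      · have h1 : (N : ℝ) ≤ t * N := by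
          have : (N : ℝ) ≤ (⌊t * N⌋₊ : ℝ) := by exact_mod_cast h
          exact this.trans (Nat.floor_le h0)
        rw [div_le_iff₀ hN', Nat.cast_sub hN, Nat.cast_one]
        linarith
      · rw [le_div_iff₀ hN', Nat.cast_sub hN, Nat.cast_one]
        have := mul_le_mul_of_nonneg_right ht.2 hN'.le
        linarith
  refine ⟨?_, ?_⟩
  · refine fine_of_net isClosed_univ ?_
    rw [← hQu]
    exact netOn_piece hQc fun _ _ _ _ _ => le_rfl
  · intro K O hK hO hKO δ hδ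
    have hKc : IsCompact K := by
      have : CompactSpace X := ⟨by rw [← hQu]; exact isCompact_Icc.image hQc⟩
      exact hK.isCompact
    obtain ⟨d, hd, hdO⟩ := hKc.exists_thickening_subset_open hO hKO
    have huc : UniformContinuousOn Q (Icc 0 1) :=
      isCompact_Icc.uniformContinuousOn_of_continuous hQc.continuousOn
    obtain ⟨κ, hκ, hκ'⟩ := Metric.uniformContinuousOn_iff.1 huc (min d δ) (lt_min hd hδ)
    obtain ⟨N0, hN0⟩ := exists_nat_gt (1 / κ)
    have hN0' : (0 : ℝ) < N0 := lt_trans (by positivity) hN0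
    have hNpos : 0 < N0 := by exact_mod_cast hN0'
    have hJ : ∀ i < N0, Icc ((i : ℝ) / N0) (((i : ℝ) + 1) / N0) ⊆ Icc 0 1 := by
      intro i hi t ht
      constructor
      · exact le_trans (by positivity) ht.1
      · refine ht.2.trans ?_
        rw [div_le_one hN0']
        exact_mod_cast hi
    have hsm : ∀ i < N0, ∀ s ∈ Icc ((i : ℝ) / N0) (((i : ℝ) + 1) / N0),
        ∀ t ∈ Icc ((i : ℝ) / N0) (((i : ℝ) + 1) / N0), dist (Q s) (Q t) < min d δ := by
      intro i hi s hs t ht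
      apply hκ' s (hJ i hi hs) t (hJ i hi ht)
      have h1 : ((i : ℝ) + 1) / N0 - (i : ℝ) / N0 = 1 / N0 := by ring
      have h2 : (1 : ℝ) / N0 < κ := by
        rw [div_lt_iff₀ hN0']
        rw [div_lt_iff₀ hκ] at hN0
        linarith
      rw [Real.dist_eq, abs_lt]
      constructor <;> linarith [hs.1, hs.2, ht.1, ht.2]
    obtain ⟨I, hI⟩ : ∃ I : Finset ℕ, I = (Finset.range N0).filter fun i : ℕ =>
      (Q '' Icc ((i : ℝ) / N0) (((i : ℝ) + 1) / N0) ∩ K).Nonempty := ⟨_, rfl⟩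
    have hIN : ∀ i ∈ I, i < N0 := by
      intro i hi
      rw [hI] at hi
      exact Finset.mem_range.1 (Finset.mem_filter.1 hi).1
    have hIK : ∀ i ∈ I, ∃ s ∈ Icc ((i : ℝ) / N0) (((i : ℝ) + 1) / N0), Q s ∈ K := by
      intro i hi
      rw [hI] at hi
      obtain ⟨_, ⟨s, hs, rfl⟩, h2⟩ := (Finset.mem_filter.1 hi).2
      exact ⟨s, hs, h2⟩
    refine ⟨⋃ i ∈ I, Q '' Icc ((i : ℝ) / N0) (((i : ℝ) + 1) / N0),
      fine_of_net (closed_biUnion hQc _ _ I) (netOn_biUnion hQc _ _ I), ?_, ?_, ?_⟩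
    · intro x hx
      rw [mem_interior]
      refine ⟨(⋃ i ∈ (Finset.range N0).filter (fun i : ℕ => x ∉ Q '' Icc ((i : ℝ) / N0)
        (((i : ℝ) + 1) / N0)), Q '' Icc ((i : ℝ) / N0) (((i : ℝ) + 1) / N0))ᶜ, ?_,
        (closed_biUnion hQc _ _ _).isOpen_compl, ?_⟩
      · intro z hz
        obtain ⟨t, ht, rfl⟩ := hQs z
        obtain ⟨i, hi, hti⟩ := hcov N0 hNpos t ht
        have hxi : x ∈ Q '' Icc ((i : ℝ) / N0) (((i : ℝ) + 1) / N0) := by
          by_contra hc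
          exact hz (mem_iUnion₂.2 ⟨i, Finset.mem_filter.2 ⟨Finset.mem_range.2 hi, hc⟩,
            mem_image_of_mem _ hti⟩)
        refine mem_iUnion₂.2 ⟨i, ?_, mem_image_of_mem _ hti⟩
        rw [hI]
        exact Finset.mem_filter.2 ⟨Finset.mem_range.2 hi, ⟨x, hxi, hx⟩⟩
      · intro hc
        obtain ⟨i, hi, hxi⟩ := mem_iUnion₂.1 hc
        exact (Finset.mem_filter.1 hi).2 hxi
    · intro z hz
      obtain ⟨i, hi, t, ht, rfl⟩ := mem_iUnion₂.1 hz
      obtain ⟨s, hs, hsK⟩ := hIK i hi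
      apply hdO
      rw [Metric.mem_thickening_iff]
      exact ⟨Q s, hsK, (hsm i (hIN i hi) t ht s hs).trans_le (min_le_left _ _)⟩
    · intro x hx
      obtain ⟨i, hi, t, ht, rfl⟩ := mem_iUnion₂.1 hx
      obtain ⟨s, hs, hsK⟩ := hIK i hi
      refine ⟨Q s, hsK, ?_⟩
      have hmem : ∀ r ∈ Icc ((i : ℝ) / N0) (((i : ℝ) + 1) / N0),
          Q r ∈ (⋃ i ∈ I, Q '' Icc ((i : ℝ) / N0) (((i : ℝ) + 1) / N0)) ∩
            Metric.closedBall (Q t) δ := by
        intro r hr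
        refine ⟨mem_iUnion₂.2 ⟨i, hi, mem_image_of_mem _ hr⟩, Metric.mem_closedBall.2 ?_⟩
        exact ((hsm i (hIN i hi) r hr t ht).trans_le (min_le_right _ _)).le
      rcases le_total s t with h | h
      · exact (joinedIn_of_path hQc h fun r hr =>
          hmem r ⟨hs.1.trans hr.1, hr.2.trans ht.2⟩).symm
      · exact joinedIn_of_path hQc h fun r hr =>
          hmem r ⟨ht.1.trans hr.1, hr.2.trans hs.2⟩

end Pool.Agent.W52.PCt.Poly
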